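import Pool.Agent.K9h28.OrtR

/-!
# Homologically trivial cycles lift orthogonally to vertical cycles: an index condition for the double
# varieties of semistable models

Let `𝒳` be a regular proper flat scheme of relative dimension `d` over the ring of integers `O` of a
number field, with generic fibre `X`. Beilinson and Bloch ask whether every homologically trivial
cycle of codimension `i` on `X` (with rational coefficients) has an extension to `𝒳` which is
orthogonal to all vertical cycles.

**Theorem.** It is true for the cycles of codimension `i ≤ d - 2` on all `X` which have a regular
projective model with strictly semistable singular fibres such that the intersections of two
components of a fibre (the double varieties: they have dimension `d - 1`, with an ample divisor `h`) have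
the following property for `q = d - i` (`IndexProperty`): if `z` is a cycle of codimension `q` with
`h ^ p · z = 0`, `p + q = d - 1`, which is not homologically trivial, then `q ≤ p` and
`(-1) ^ q z · z · h ^ (p - q) > 0`. And it is true for all the regular models which are dominated by such
a model. **There are no conditions on the components of the fibres**, whose cohomology can be
arbitrary, and none on the intersections of three and more components. (For `i = d - 1`, that is `q = 1`,
the property is the Hodge index theorem, and one obtains the one-dimensional cycles on all semistable
models: `OneDimensionalCycles`. The case `i = d` is classical.)

The index property in codimension `q` is true
* for quadrics, **for all** `q`;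
* for complete intersections, Fano threefolds of Picard number one, and other varieties whose even
  cohomology has dimension one in each degree except possibly the middle one, for all `q` with
  `2 q ≠ d - 1`; and also for `2 q = d - 1` if the conjecture of Hodge type is true for them.

Example: **all the fibres of some model have only ordinary double points.** If the model is given by
`q(x_0, …, x_d) = π ^ n`, with a nondegenerate quadratic form `q`, near the double points, then one
obtains, after a ramified quadratic extension (if `n` is odd) and blowing up, a strictly semistable model
of this kind, in which the double varieties are smooth quadrics `q = 0`. So the assertion of Beilinson
and Bloch is true, in all codimensions, for example for all smooth hypersurfaces over `ℚ` with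
squarefree discriminant (then every fibre has at most one singular point, which is an ordinary double
point, by Poonen and Stoll). For such hypersurfaces of odd dimension `2 m - 1` the cycles of codimension
`m` are the interesting ones. Second example: the fibres of a hypersurface may also be unions of two
smooth hypersurfaces `f = 0`, `g = 0` with transversal intersection, with an equation `f g = π h` of the
model, `h` general; the double variety `f = g = 0` of the resolution is a complete intersection of
dimension `d - 1`. Neither the conjecture of Hodge type nor the equality of numerical and homological
equivalence are known for the components of the fibres.

The hypotheses of the theorem besides `DoubleVarieties` are known facts: the formal properties of the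
cycles on a regular model (`IsModel`), among them the fact that the restrictions to the components of
a fibre of a cycle which is homologically trivial on `X` are zero in the spectral sequence of the
weights, and the Hodge index theorem for divisors on the strata (`HodgeIndexOnStrata`).

**Proof.** Let `Y_s`, `S_t`, `U_c` be the intersections of one, two, three components of the fibre over
`v`, `ρ` the restrictions and `γ` the Gysin maps, with signs. Let `z` extend a homologically trivial
cycle, and let `x_s` be the class of the restriction of `z` to `Y_s`; then `x = γ y` with classes `y` on the
`S_t` and `ρ y + γ y' = 0` with classes `y'` on the intersections of four components; they need not be
algebraic. By linear algebra it is enough to show that `∑ x_s w_s = 0` if `w_s` are cycles of codimension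
`q = d - i` on the `Y_s` such that the vertical cycle `w` is orthogonal to all vertical cycles. Let
`r = ρ w`, a family of classes on the `S_t`, so that `∑ x_s w_s = ∑ y_t r_t`. By the Hodge index theorem
for the divisors `γ φ` on the `Y_s`, where `φ` is a rational function on the set of the `S_t` with
`ρ φ = 0`, and the positivity of the degrees of the `S_t` and `U_c`, there is a function `ψ` on the set of
the `S_t` such that `x' = r - h^(q-1) γ ρ ψ` satisfies `h^p x' = 0`. As `ρ x' = 0` and `γ x' = γ ρ w` is
orthogonal to `h^(p-q) w`, the sum of the numbers `h^(p-q) x'_t x'_t` is zero, if `q ≤ p`. So `x' = 0` by the
index property, and `∑ y_t r_t = ∑ y h^(q-1) γ ρ ψ = ∑ (ρ y) h^(q-1) ρ ψ = - ∑ (γ y') h^(q-1) ρ ψ = 0`.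
-/

set_option autoImplicit false

universe u v

namespace Pool.Agent.Results.MP_62d77c_ag.DoubleVarieties

open Pool.Agent.K9h28.Ort

/-- **Homologically trivial cycles lift orthogonally to the vertical cycles, if the double varieties
have the index property.** Let `M'` be a regular projective model of relative dimension `d` with
strictly semistable singular fibres, and let `1 ≤ i' ≤ d - 2`. Suppose that the intersections of two
components of the fibres have the `IndexProperty` in codimension `d - i'` (for example, that they are
quadrics). If `M'` dominates the regular model `M`, in the codimensions `i'` and `i`, then all
homologically trivial cycles of codimension `i` on the generic fibre of `M` have extensions which are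
orthogonal to all vertical cycles. (In particular, with `f`, `g` and `pb` the identity, this is true for
`M'` itself and `i = i'`.) -/
theorem result {d e i i' : ℕ} (h1 : 1 ≤ i') (h2 : i' + 2 ≤ d) (M' : Model.{u, v})
    (hM' : IsModel M' d) (hI : HodgeIndexOnStrata M') (hN : DoubleVarieties M' (d - i'))
    (M : CyclesOn.{u}) (hdom : Dominates M M'.toCyclesOn e d i i') : LiftsOrthogonally M e i :=
  lifts_of_dominates hdom (lifts_of_double hM' hI h1 h2 hN)

end Pool.Agent.Results.MP_62d77c_ag.DoubleVarieties
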