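import Pool.Agent.K9h22.LiftB

/-!
# Lifting homologically trivial cycles orthogonally to vertical cycles

Let `𝒳` be a regular proper flat scheme of relative dimension `d` over the ring of integers `O` of a number
field, with generic fibre `X`, and `1 ≤ i ≤ d`. Beilinson and Bloch ask whether every homologically trivial
cycle of codimension `i` on `X` (with rational coefficients) has an extension to `𝒳` which is orthogonal to
all vertical cycles. Known before: `𝒳` smooth over `O`, and `i = 1`, `i = d`.

For each closed point `v` of `Spec O` with singular fibre let `Y_s` be smooth projective varieties over finite
extensions of the residue field, with proper morphisms to `𝒳` with images the irreducible components of the
fibre (the components when the reduction is strictly semistable; alterations of them in general).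

Theorem: let `𝒳'` be a regular model (of a variety `X'` of dimension `d'`, possibly over a larger number
field) such that

* the monodromy-weight conjecture holds for `H^(2i-1)(X')` at the singular fibres; more precisely, the
  cohomology classes, on the geometric closed fibres, of the cycles of codimension `i` on `𝒳'` which are
  homologically trivial on `X'` are sums of direct images of cohomology classes (of any kind) of the
  components (`ClassesFromComponents`);
* numerical and homological equivalence coincide for the cycles of the single codimension `d' + 1 - i` on the
  varieties `Y_s` over the points with singular fibre, for one prime `ℓ` which can depend on the point
  (`HomEqNumOnBadFibres`).

Then the assertion of Beilinson and Bloch in codimension `i` holds for `𝒳'`, and for every regular model `𝒳`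
of every variety `X` which is dominated by `X'`, or whose Chow motive is a direct summand of that of `X'`
(`Dominates`). No Hodge index theorem (positivity), no Lefschetz or Tate conjecture is used.

Consequences (with known theorems, which are not part of the statement):

* for all abelian varieties `X'`, by the semistable models of Kunnemann, whose components are bundles of toric
  varieties over abelian varieties, the monodromy-weight conjecture for abelian varieties, and the theorem of
  Clozel that numerical and homological equivalence coincide for abelian varieties over finite fields for a
  set of primes `ℓ` of positive density. So the assertion holds for all regular models, over all rings of
  integers, of all abelian varieties, of products of curves, and of all varieties whose Chow motive is a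
  direct summand of that of `A × ℙ^m`, `A` an abelian variety. (Kunnemann: abelian varieties with totally
  degenerate reduction at the bad places.) In particular the height pairing of Beilinson and Bloch is defined
  on all homologically trivial cycles of these varieties;
* for all regular models of all varieties which are dominated by varieties with potentially good reduction
  everywhere.

The idea: let `z` be an extension of the cycle. The intersection numbers with vertical cycles `g` over `v`
define a functional which has to be represented by vertical cycles. It can be represented if it vanishes on
the `g` which are orthogonal to all vertical cycles. The restrictions of such a `g` to the `Y_s` are
numerically trivial, hence homologically trivial, hence orthogonal to all classes in cohomology, in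
particular to the classes `x` whose direct images add up to the class of `z`.
-/

set_option autoImplicit false

universe u v

namespace Pool.Agent.Results.MP_62d77c_ag.HomologicalNumerical

open Pool.Agent.K9h22.Lift

/-- **Lifting cycles orthogonally to vertical cycles, from the equality of numerical and homological
equivalence on the components.** Let `M'` be a regular model such that the classes of homologically trivial
cycles of codimension `i` come from the components of the closed fibres, and such that numerical and
homological equivalence coincide in codimension `d' + 1 - i` on the components of the singular fibres. If `M'`
dominates the regular model `M` in codimension `i`, then all homologically trivial cycles of codimension `i`
on the generic fibre of `M` have extensions which are orthogonal to all vertical cycles. -/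
theorem result {d d' : ℕ} (M : Model.{u, v} d) (M' : Model.{u, v} d') (hM' : IsModel M') (i : ℕ)
    (hi : 1 ≤ i) (hid : i ≤ d') (hdom : Dominates M M' i) (hloc : ClassesFromComponents M' i)
    (hD : HomEqNumOnBadFibres M' i) : LiftsOrthogonally M i :=
  lifts_of_dominates hdom (lifts_of_homEqNum hM' hi hid hloc hD)

end Pool.Agent.Results.MP_62d77c_ag.HomologicalNumerical
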