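import Pool.Agent.K9h28.OrtN

/-!
# Homologically trivial one-dimensional cycles lift orthogonally to the vertical cycles

Let `𝒳` be a regular proper flat scheme of relative dimension `d` over the ring of integers `O` of a
number field, with generic fibre `X`. Beilinson and Bloch ask whether every homologically trivial
cycle of codimension `i` on `X` (with rational coefficients) has an extension to `𝒳` which is
orthogonal to all vertical cycles. This is classical for `i = 1` and `i = d` (divisors and
zero-cycles).

**Theorem.** It is true for `i = d - 1`, that is, for homologically trivial **one-dimensional
cycles**, for all `X` of dimension `d ≥ 3` which have a regular projective model with strictly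
semistable singular fibres (over the ring of integers of some number field), and for all the regular
models which are dominated by such a model, in particular by an alteration. So for
**threefolds**, where `i = 2` is the only case which is not classical, the answer to the
question is positive for all regular models which are dominated by strictly semistable ones
(by de Jong there are alterations with semistable reduction), and the height pairing of Beilinson and
Bloch is defined on all homologically trivial cycles of codimension `2`.

The hypotheses of the theorem below are known facts: the formal properties of the cycles on a
regular model (`IsModel`), among them the fact that the restrictions to the components of the closed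
fibre of a cycle which is homologically trivial on `X` are zero in the spectral sequence of the weights
(`SpecializationZero`), and the Hodge index theorem for divisors on the strata of the singular fibres
(`HodgeIndexOnStrata`). Neither the monodromy-weight conjecture nor the equality of numerical and
homological equivalence (for one-dimensional cycles on the components) is used; both are unknown
for threefolds. (The team's `HomologicalNumerical` uses both, and gives all codimensions for
varieties for which they are known, like abelian varieties.)

**Proof.** Let `Y_s` be the components of the fibre over `v`, let `S_t` be the strata of rank one (the
double varieties), let `C_c` be those of rank two and `P_p` those of rank three, and `h` the ample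
divisor. Let `z` extend `c`, let `x_s` be the class of the restriction of `z` to `Y_s`. The vertical
cycles over `v` of codimension two are given by divisors `w_s` on `Y_s`. By linear algebra it is enough to
show that `∑ x_s w_s = 0` if the vertical cycle `w` is orthogonal to all vertical cycles. Put
`X_t = w_s |_{S_t} - w_{s'} |_{S_t}` if `S_t` is in `Y_s ∩ Y_{s'}`.
* (rank one functions) If `φ_t` are rational numbers with `dφ = 0` on the strata of rank two, then
  `φ = φ' + dβ` with `∑ φ'_t [S_t] = 0` as divisor classes on all `Y_s`: if `φ'` is harmonic for the
  weights `h^(d-1) · S_t`, these divisors are primitive and their restrictions to the `S_t` agree, so
  the sum of their squares is zero, and the Hodge index theorem can be applied.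
* It follows that the numbers `X_t · h^(d-2)` are orthogonal to all `φ` with `dφ = 0`. Hence there are
  rational numbers `ψ_t` such that the divisors `X_t - ∑ (dψ)_c [C_c]` on `S_t` are primitive. The sum of
  their squares is zero, and by the Hodge index theorem `X_t = ∑ (dψ)_c [C_c]` on all `S_t`.
* So `w` and the classes `-(dψ)_c` on the `C_c` form a cocycle of the complex of Rapoport, Zink and
  Steenbrink, and its product with the coboundary `x` is zero.
-/

set_option autoImplicit false

universe u v

namespace Pool.Agent.Results.MP_62d77c_ag.OneDimensionalCycles

open Pool.Agent.K9h28.Ort

/-- **Homologically trivial one-dimensional cycles lift orthogonally to the vertical cycles.** Let
`M'` be a regular projective model of relative dimension `d ≥ 3` with strictly semistable singular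
fibres. If `M'` dominates the regular model `M`, in the codimensions `d - 1` (one-dimensional cycles)
and `i`, then all homologically trivial cycles of codimension `i` on the generic fibre of `M` have
extensions which are orthogonal to all vertical cycles. (In particular, with `f`, `g` and `pb` the
identity, this is true for `M'` itself and `i = d - 1`.) -/
theorem result {d e i : ℕ} (hd : 3 ≤ d) (M' : Model.{u, v}) (hM' : IsModel M' d)
    (hI : HodgeIndexOnStrata M') (M : CyclesOn.{u})
    (hdom : Dominates M M'.toCyclesOn e d i (d - 1)) : LiftsOrthogonally M e i :=
  lifts_of_dominates hdom (lifts_of_index hM' hd hI)

end Pool.Agent.Results.MP_62d77c_ag.OneDimensionalCycles
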